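import Pool.Agent.H44.DV.Targets

/-! # Board DV, module T1: a leaf accumulates at a closed leaf or is dense -/

set_option autoImplicit false

namespace Pool.Agent.H34.DV
open Pool.Agent.H44.DU

theorem pf_T1 (h1 : D_IV) (h2 : D_AC) (h3 : D_AN) (h4 : D_CN2) : D_T1 := by
  intro n S t c hC hOK y hy
  by_cases hA : ∃ q ∈ S.TPer t, Acc y q
  · exact Or.inl hA
  · right
    have hinv : ∀ p q : Side n × ℝ, S.Tr t p q →
        (p ∈ {p | ¬ Acc y p} ↔ q ∈ {p | ¬ Acc y p}) :=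
      fun p q h => not_congr (h1 n S t y hy p q h)
    have hopen : ∀ (r : Side n) (x : ℝ), S.InJ t r x → (r, x) ∈ {p | ¬ Acc y p} →
        ∃ ε > (0 : ℝ), ∀ x', |x' - x| < ε → (r, x') ∈ {p | ¬ Acc y p} := by
      intro r x _ hx
      have hx0 : ¬ H44.DU.Acc y (r, x) := hx
      unfold H44.DU.Acc at hx0
      push Not at hx0
      obtain ⟨ε, hε, N, hN⟩ := hx0
      refine ⟨ε / 2, by linarith, fun x' hxx hacc => ?_⟩
      obtain ⟨k, hk, hk1, hk2⟩ := hacc (ε / 2) (by linarith) N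
      have h5 := hN k hk hk1
      simp only at h5 hk2
      have h6 : |(y k).2 - x| ≤ |(y k).2 - x'| + |x' - x| := abs_sub_le _ _ _
      linarith
    have hper : ∀ p ∈ S.TPer t, p ∈ {p | ¬ Acc y p} := fun p hp hacc => hA ⟨p, hp, hacc⟩
    obtain ⟨r₀, x₀, hr₀, hacc₀⟩ := h2 n S t c hOK.gd hOK.pos hOK.gain y hy
    have hcl : ∀ (r : Side n) (x : ℝ), S.InJ t r x → Acc y (r, x) →
        ∀ x', S.InJ t r x' → Acc y (r, x') := by
      intro r x hx hacc x' hx'
      by_contra hne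
      exact h3 n S t c hOK {p | ¬ Acc y p} hinv hopen hper r x' x hx' hx hne hacc
    have hΦ : ∀ p q : Side n × ℝ, S.Tr t p q →
        ((∀ x, S.InJ t p.1 x → Acc y (p.1, x)) ↔ ∀ x, S.InJ t q.1 x → Acc y (q.1, x)) := by
      intro p q hpq
      have hiv := h1 n S t y hy p q hpq
      constructor
      · intro h
        exact hcl q.1 q.2 hpq.2.1 (hiv.1 (h p.2 hpq.1))
      · intro h
        exact hcl p.1 p.2 hpq.1 (hiv.2 (h q.2 hpq.2.1))
    intro r x hx
    exact h4 n S t hC hOK.gd (fun r => ∀ x, S.InJ t r x → Acc y (r, x)) hΦ r₀ r x₀ x hr₀ hx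
      (hcl r₀ x₀ hr₀ hacc₀) x hx

end Pool.Agent.H34.DV
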